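import Pool.Agent.Helper24.AB.AN.Goals

/-!
MP_1ef41b_an, project AB, packet BAS: the basic estimate on the strip.
-/

set_option autoImplicit false

open MeasureTheory Set Filter Topology
open scoped ContDiff

noncomputable section

namespace Pool.Agent.Helper27.AB

open Pool.Agent.Helper24.AB

theorem isOpen_strip (a : ℝ) : IsOpen (strip a) := by
  have : strip a = (fun w : ℂ => |w.re|) ⁻¹' Iio a := rfl
  rw [this]
  exact isOpen_Iio.preimage (continuous_abs.comp Complex.continuous_re)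

theorem nmem_zero {φ : ℂ → ℂ} {w : ℂ} (h : w ∉ tsupport φ) : φ w = 0 :=
  image_eq_zero_of_notMem_tsupport h

theorem fderiv_zero {φ : ℂ → ℂ} {w : ℂ} (h : w ∉ tsupport φ) : fderiv ℝ φ w = 0 := by
  have h1 : w ∉ tsupport (fderiv ℝ φ) := fun h2 => h (tsupport_fderiv_subset ℝ h2)
  exact image_eq_zero_of_notMem_tsupport h1

/-- continuous on the strip and zero off the support of a test function: integrable -/
theorem intg {a : ℝ} {φ : ℂ → ℂ} (hφ : IsTest a φ) {F : ℂ → ℝ} (hF : ContinuousOn F (strip a))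
    (h0 : ∀ w, w ∉ tsupport φ → F w = 0) : Integrable F volume := by
  have hs : Function.support F ⊆ tsupport φ := by
    intro w hw
    by_contra h
    exact hw (h0 w h)
  rw [← integrableOn_iff_integrable_of_support_subset hs]
  exact (hF.mono hφ.2.2).integrableOn_compact hφ.2.1

/-- `|φ|²` -/
theorem hasFDerivAt_nsq {φ : ℂ → ℂ} (hφ : ContDiff ℝ ∞ φ) (w : ℂ) :
    HasFDerivAt (fun w => ‖φ w‖ ^ 2) (2 • (innerSL ℝ (φ w)).comp (fderiv ℝ φ w)) w :=
  ((hφ.differentiable (by simp)) w).hasFDerivAt.norm_sq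

theorem setint {a : ℝ} {φ : ℂ → ℂ} (hφ : IsTest a φ) {F : ℂ → ℝ}
    (h0 : ∀ w, w ∉ tsupport φ → F w = 0) : ∫ w in strip a, F w = ∫ w, F w := by
  apply setIntegral_eq_integral_of_forall_compl_eq_zero
  intro w hw
  exact h0 w fun h => hw (hφ.2.2 h)

/-- packet BAS -/
theorem bas (hID : S_ID) : S_BAS := by
  intro a Φ ha hΦ hlap φ hφ
  have hO := isOpen_strip a
  have hΦ1 : ContinuousOn (fderiv ℝ Φ) (strip a) := hΦ.continuousOn_fderiv_of_isOpen hO (by simp)
  have hdT : ContinuousOn (dT Φ) (strip a) := hΦ1.clm_apply continuousOn_const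
  have hdS : ContinuousOn (dS Φ) (strip a) := hΦ1.clm_apply continuousOn_const
  have hφc : Continuous φ := hφ.1.continuous
  have hφd : Continuous (fderiv ℝ φ) := hφ.1.continuous_fderiv (by simp)
  have hφS : Continuous (dS φ) := hφd.clm_apply continuous_const
  have hφT : Continuous (dT φ) := hφd.clm_apply continuous_const
  -- the horizontal covariant derivative
  set X : ℂ → ℂ := fun w => dS φ w + Complex.I * (dT Φ w : ℝ) * φ w with hX
  have hXc : ContinuousOn X (strip a) :=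
    hφS.continuousOn.add ((continuousOn_const.mul
      (Complex.continuous_ofReal.comp_continuousOn hdT)).mul hφc.continuousOn)
  set Y : ℂ → ℂ := fun w => dT φ w - Complex.I * (dS Φ w : ℝ) * φ w with hY
  have hYc : ContinuousOn Y (strip a) :=
    hφT.continuousOn.sub ((continuousOn_const.mul
      (Complex.continuous_ofReal.comp_continuousOn hdS)).mul hφc.continuousOn)
  have hS0 : ∀ w, w ∉ tsupport φ → dS φ w = 0 := fun w h => by simp [dS, fderiv_zero h]
  have hT0 : ∀ w, w ∉ tsupport φ → dT φ w = 0 := fun w h => by simp [dT, fderiv_zero h]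
  have hX0 : ∀ w, w ∉ tsupport φ → X w = 0 := fun w h => by simp [hX, hS0 w h, nmem_zero h]
  have hY0 : ∀ w, w ∉ tsupport φ → Y w = 0 := fun w h => by simp [hY, hT0 w h, nmem_zero h]
  have iX : Integrable (fun w => ‖X w‖ ^ 2) volume :=
    intg hφ (hXc.norm.pow 2) (fun w h => by simp [hX0 w h])
  have iG : Integrable (gA Φ φ) volume :=
    intg hφ ((hXc.norm.pow 2).add (hYc.norm.pow 2))
      (fun w h => by
        have h1 := hX0 w h
        have h2 := hY0 w h
        simp only [hX] at h1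
        simp only [hY] at h2
        simp [gA, h1, h2])
  have iP : Integrable (fun w => ‖φ w‖ ^ 2) volume :=
    intg hφ (hφc.norm.pow 2).continuousOn (fun w h => by simp [nmem_zero h])
  -- integration by parts with the weight `σ`
  have hg := hasFDerivAt_nsq hφ.1
  have hgd : ∀ w, fderiv ℝ (fun w => ‖φ w‖ ^ 2) w 1
      = 2 * inner ℝ (φ w) (dS φ w) := by
    intro w
    rw [(hg w).fderiv]
    simp [dS]
    ring
  have hre : ∀ w : ℂ, fderiv ℝ (fun w : ℂ => w.re) w 1 = 1 := by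
    intro w
    have : HasFDerivAt (fun w : ℂ => w.re) Complex.reCLM w := Complex.reCLM.hasFDerivAt
    rw [this.fderiv]; simp
  have hinner : Continuous fun w => inner ℝ (φ w) (dS φ w) := hφc.inner hφS
  have ibp : ∫ w : ℂ, w.re * fderiv ℝ (fun w => ‖φ w‖ ^ 2) w 1
      = - ∫ w : ℂ, fderiv ℝ (fun w : ℂ => w.re) w 1 * ‖φ w‖ ^ 2 := by
    apply integral_mul_fderiv_eq_neg_fderiv_mul_of_integrable
    · simp only [hre, one_mul]; exact iP
    · simp only [hgd]
      exact intg hφ (Complex.continuous_re.mul (continuous_const.mul hinner)).continuousOn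
        (fun w h => by simp [nmem_zero h])
    · exact intg hφ (Complex.continuous_re.mul (hφc.norm.pow 2)).continuousOn
        (fun w h => by simp [nmem_zero h])
    · intro w _
      exact Complex.reCLM.differentiableAt
    · intro w _
      exact (hg w).differentiableAt
  simp only [hgd, hre, one_mul] at ibp
  -- the pointwise inequality
  have hpt : ∀ w : ℂ, -(w.re * (2 * inner ℝ (φ w) (dS φ w)))
      ≤ (1 / 2) * ‖φ w‖ ^ 2 + 2 * a ^ 2 * ‖X w‖ ^ 2 := by
    intro w
    by_cases hw : w ∈ tsupport φ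
    · have hwa : |w.re| < a := hφ.2.2 hw
      have e1 : inner ℝ (φ w) (dS φ w) = inner ℝ (φ w) (X w) := by
        have : inner ℝ (φ w) (Complex.I * (dT Φ w : ℝ) * φ w) = 0 := by
          rw [Complex.inner]
          simp only [Complex.mul_re, Complex.mul_im, Complex.conj_re, Complex.conj_im,
            Complex.I_re, Complex.I_im, Complex.ofReal_re, Complex.ofReal_im]
          ring
        rw [hX]
        simp only
        rw [inner_add_right, this, add_zero]
      have e2 : |inner ℝ (φ w) (X w)| ≤ ‖φ w‖ * ‖X w‖ := abs_real_inner_le_norm _ _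
      rw [e1]
      have e3 : -(w.re * (2 * inner ℝ (φ w) (X w))) ≤ |w.re| * (2 * (‖φ w‖ * ‖X w‖)) := by
        calc -(w.re * (2 * inner ℝ (φ w) (X w)))
            ≤ |w.re * (2 * inner ℝ (φ w) (X w))| := neg_le_abs _
          _ = |w.re| * (2 * |inner ℝ (φ w) (X w)|) := by
            rw [abs_mul, abs_mul, abs_of_pos (two_pos : (0 : ℝ) < 2)]
          _ ≤ _ := by gcongr
      have e4 : |w.re| * (2 * (‖φ w‖ * ‖X w‖)) ≤ a * (2 * (‖φ w‖ * ‖X w‖)) := by
        gcongr
      nlinarith [sq_nonneg (‖φ w‖ - 2 * a * ‖X w‖)]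
    · rw [nmem_zero hw]
      simp only [inner_zero_left, mul_zero, neg_zero, norm_zero]
      positivity
  have hmain : ∫ w : ℂ, ‖φ w‖ ^ 2 ≤ 4 * a ^ 2 * ∫ w : ℂ, ‖X w‖ ^ 2 := by
    have h1 : ∫ w : ℂ, ‖φ w‖ ^ 2 = ∫ w : ℂ, -(w.re * (2 * inner ℝ (φ w) (dS φ w))) := by
      rw [integral_neg, ibp, neg_neg]
    have h2 : ∫ w : ℂ, -(w.re * (2 * inner ℝ (φ w) (dS φ w)))
        ≤ ∫ w : ℂ, ((1 / 2) * ‖φ w‖ ^ 2 + 2 * a ^ 2 * ‖X w‖ ^ 2) := by
      apply integral_mono _ _ hpt
      · exact intg hφ (Complex.continuous_re.mul (continuous_const.mul hinner)).neg.continuousOn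
          (fun w h => by simp [nmem_zero h])
      · exact (iP.const_mul _).add (iX.const_mul _)
    have h3 : ∫ w : ℂ, ((1 / 2) * ‖φ w‖ ^ 2 + 2 * a ^ 2 * ‖X w‖ ^ 2)
        = (1 / 2) * (∫ w : ℂ, ‖φ w‖ ^ 2) + 2 * a ^ 2 * ∫ w : ℂ, ‖X w‖ ^ 2 := by
      rw [integral_add (iP.const_mul _) (iX.const_mul _), integral_const_mul, integral_const_mul]
    rw [h3] at h2
    linarith
  have hXG : ∫ w : ℂ, ‖X w‖ ^ 2 ≤ ∫ w : ℂ, gA Φ φ w := by
    apply integral_mono iX iG
    intro w
    show ‖X w‖ ^ 2 ≤ ‖X w‖ ^ 2 + ‖Y w‖ ^ 2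
    have := sq_nonneg ‖Y w‖
    linarith
  have s1 : ∫ w in strip a, ‖φ w‖ ^ 2 = ∫ w : ℂ, ‖φ w‖ ^ 2 :=
    setint hφ (fun w h => by simp [nmem_zero h])
  have s2 : ∫ w in strip a, gA Φ φ w = ∫ w : ℂ, gA Φ φ w :=
    setint hφ (fun w h => by
      have h1 := hX0 w h
      have h2 := hY0 w h
      simp only [hX] at h1
      simp only [hY] at h2
      simp [gA, h1, h2])
  have hfirst : (∫ w in strip a, ‖φ w‖ ^ 2) ≤ 4 * a ^ 2 * (∫ w in strip a, gA Φ φ w) := by
    rw [s1, s2]
    exact hmain.trans (mul_le_mul_of_nonneg_left hXG (by positivity))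
  refine ⟨hfirst, ?_⟩
  have hlapc : ContinuousOn (lapC Φ) (strip a) := by
    have h1 : ContDiffOn ℝ ∞ (fderiv ℝ Φ) (strip a) := hΦ.fderiv_of_isOpen hO (by simp)
    have h2 : ContDiffOn ℝ ∞ (dS Φ) (strip a) := h1.clm_apply contDiffOn_const
    have h3 : ContDiffOn ℝ ∞ (dT Φ) (strip a) := h1.clm_apply contDiffOn_const
    exact ((h2.continuousOn_fderiv_of_isOpen hO (by simp)).clm_apply continuousOn_const).add
      ((h3.continuousOn_fderiv_of_isOpen hO (by simp)).clm_apply continuousOn_const)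
  have iL : Integrable (fun w => lapC Φ w * ‖φ w‖ ^ 2) volume :=
    intg hφ (hlapc.mul (hφc.norm.pow 2).continuousOn) (fun w h => by simp [nmem_zero h])
  have hmono : ∫ w in strip a, gA Φ φ w
      ≤ ∫ w in strip a, (gA Φ φ w + lapC Φ w * ‖φ w‖ ^ 2) := by
    apply setIntegral_mono_on iG.integrableOn (iG.integrableOn.add iL.integrableOn)
      hO.measurableSet
    intro w hw
    have := mul_nonneg (hlap w hw) (sq_nonneg ‖φ w‖)
    show gA Φ φ w ≤ gA Φ φ w + lapC Φ w * ‖φ w‖ ^ 2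
    linarith
  have hid := hID a Φ hΦ φ hφ
  calc (∫ w in strip a, ‖φ w‖ ^ 2) ≤ 4 * a ^ 2 * (∫ w in strip a, gA Φ φ w) := hfirst
    _ ≤ 4 * a ^ 2 * (∫ w in strip a, (gA Φ φ w + lapC Φ w * ‖φ w‖ ^ 2)) :=
        mul_le_mul_of_nonneg_left hmono (by positivity)
    _ = 16 * a ^ 2 * ∫ w in strip a, ‖Dop Φ φ w‖ ^ 2 := by rw [hid]; ring

end Pool.Agent.Helper27.AB
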